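import Pool.Agent.Helper74.QE.Stm

/-!
# A finite extension of number fields is unramified outside a finite set of places
-/

set_option autoImplicit false

namespace Pool.Agent.Helper74.QE.UNRF

open MZ NumberField IsDedekindDomain

theorem main : S_UNRF := by
  intro F Ω _ _ _ _ L _
  have : CharZero L := charZero_of_injective_algebraMap (algebraMap F L).injective
  have : FiniteDimensional ℚ L := Module.Finite.trans F L
  have : NumberField L := { to_charZero := inferInstance, to_finiteDimensional := inferInstance }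
  have hD : differentIdeal (𝓞 F) (𝓞 L) ≠ 0 := by
    rw [Ne, Ideal.zero_eq_bot]
    exact differentIdeal_ne_bot
  have hfin := Ideal.finite_factors hD
  set c : HeightOneSpectrum (𝓞 L) → Ideal (𝓞 F) := fun w =>
    w.asIdeal.comap (algebraMap (𝓞 F) (𝓞 L)) with hc
  refine ⟨(fun v : HeightOneSpectrum (𝓞 F) => v.asIdeal) ⁻¹'
    (c '' {v | v.asIdeal ∣ differentIdeal (𝓞 F) (𝓞 L)}), ?_, ?_⟩
  · refine (hfin.image c).preimage ?_
    intro v _ w _ h
    exact HeightOneSpectrum.ext h
  · intro w hw
    have := w.isPrime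
    rw [← not_dvd_differentIdeal_iff (A := 𝓞 F)]
    intro hdvd
    have hne : c w ≠ ⊥ := mt Ideal.eq_bot_of_comap_eq_bot w.ne_bot
    exact hw ⟨c w, Ideal.comap_isPrime _ _, hne⟩ ⟨w, hdvd, rfl⟩ rfl

end Pool.Agent.Helper74.QE.UNRF
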