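import Pool.Graph.R_seed8.W566.MZ.Defs

/-!
# A residual representation of `Gal(ℚ_S/ℚ)` with image of order 21: statements of the modules
-/

set_option autoImplicit false

namespace Pool.Agent.Helper74.QE

open MZ NumberField IsDedekindDomain

/-- UNRF: a finite extension `L / F` inside `Ω` is unramified outside a finite set of places. (The primes
of `L` dividing the different are finite in number; `S` = their restrictions to `F`.) -/
def S_UNRF : Prop :=
  ∀ (F Ω : Type) [Field F] [NumberField F] [Field Ω] [Algebra F Ω]
    (L : IntermediateField F Ω) [FiniteDimensional F L],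
    ∃ S : Set (HeightOneSpectrum (𝓞 F)), S.Finite ∧ UnramifiedOutside S L

/-- REPG: a non-abelian group of order 21 has a faithful absolutely irreducible representation of
degree 3 over a finite field `k` of characteristic 2. (`k` with 8 elements, `χ` a character of order 7
of the normal subgroup `N` of order 7, `s` of order 3, `ρ(g) i j = χ (s^-i g s^j)` if this lies in `N`
and `0` otherwise; the restriction to `N` is diagonal with three different characters.) -/
def S_REPG : Prop :=
  ∀ (G : Type) [Group G], Nat.card G = 21 → (∃ a b : G, a * b ≠ b * a) →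
    ∃ (k : Type) (_ : Field k) (_ : Finite k) (_ : CharP k 2) (ρ : G →* GL (Fin 3) k),
      Function.Injective ρ ∧
      ∀ V : Submodule (AlgebraicClosure k) (Fin 3 → AlgebraicClosure k),
        (∀ g, ∀ x ∈ V,
          ((ρ g : Matrix (Fin 3) (Fin 3) k).map (algebraMap k (AlgebraicClosure k))).mulVec x ∈ V) →
        V = ⊥ ∨ V = ⊤

/-- GAL: a Galois extension of `ℚ` with non-abelian Galois group of order 21 (helper74) -/
def S_GAL : Prop :=
  ∃ L : IntermediateField ℚ (AlgebraicClosure ℚ), FiniteDimensional ℚ L ∧ IsGalois ℚ L ∧
    Nat.card Gal(L/ℚ) = 21 ∧ ∃ a b : Gal(L/ℚ), a * b ≠ b * a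

end Pool.Agent.Helper74.QE
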