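import Pool.Agent.Helper74.QE.GAL

/-!
# A non-abelian Galois extension of degree 21 of every number field of degree prime to 21 (helper74)
-/

set_option autoImplicit false

namespace Pool.Agent.Helper74.QE.GALF

open Polynomial IntermediateField

/-- over a number field `F` of degree prime to the prime degree `p` of an integral polynomial which is
irreducible over `ℚ`, the polynomial is still the minimal polynomial of its roots -/
theorem minpoly_over_F {F Ω : Type} [Field F] [NumberField F] [Field Ω] [Algebra F Ω] [CharZero Ω]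
    (P : ℤ[X]) (hP : P.Monic) {p : ℕ} (hp : p.Prime) (hd : P.natDegree = p)
    (hirr : Irreducible (P.map (algebraMap ℤ ℚ))) (hcop : (Module.finrank ℚ F).Coprime p) (x : Ω)
    (hx : aeval x P = 0) : minpoly F x = P.map (algebraMap ℤ F) := by
  have hxF : aeval x (P.map (algebraMap ℤ F)) = 0 := by
    rw [aeval_map_algebraMap]; exact hx
  have hint : IsIntegral F x := ⟨P.map (algebraMap ℤ F), hP.map _, hxF⟩
  have hfd : FiniteDimensional F F⟮x⟯ := IntermediateField.adjoin.finiteDimensional hint
  have hnf : NumberField F⟮x⟯ := NumberField.of_module_finite F F⟮x⟯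
  let z : F⟮x⟯ := ⟨x, IntermediateField.mem_adjoin_simple_self F x⟩
  have hz : aeval z P = 0 := by
    apply Subtype.ext
    have h1 := Polynomial.aeval_algebraMap_apply Ω z P
    have h2 : algebraMap F⟮x⟯ Ω z = x := rfl
    rw [h2, hx] at h1
    exact h1.symm
  have hzm : minpoly ℚ z = P.map (algebraMap ℤ ℚ) := by
    refine (minpoly.eq_of_irreducible_of_monic hirr ?_ (hP.map _)).symm
    rw [aeval_map_algebraMap]; exact hz
  have hdz : Module.finrank ℚ ℚ⟮z⟯ = p := by
    rw [IntermediateField.adjoin.finrank (Algebra.IsIntegral.isIntegral z), hzm, hP.natDegree_map, hd]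
  have e1 := Module.finrank_mul_finrank ℚ ℚ⟮z⟯ F⟮x⟯
  have e2 := Module.finrank_mul_finrank ℚ F F⟮x⟯
  have hdvd : p ∣ Module.finrank F F⟮x⟯ := by
    refine hcop.symm.dvd_of_dvd_mul_left ?_
    rw [e2, ← e1, hdz]
    exact dvd_mul_right _ _
  have hdeg : Module.finrank F F⟮x⟯ = (minpoly F x).natDegree := IntermediateField.adjoin.finrank hint
  have hmd : minpoly F x ∣ P.map (algebraMap ℤ F) := minpoly.dvd F x hxF
  refine (Polynomial.eq_of_monic_of_dvd_of_natDegree_le (minpoly.monic hint) (hP.map _) hmd ?_).symm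
  rw [hP.natDegree_map, hd, ← hdeg]
  exact Nat.le_of_dvd Module.finrank_pos hdvd

/-- GALF -/
theorem main (F Ω : Type) [Field F] [NumberField F] [Field Ω] [Algebra F Ω] [IsAlgClosure F Ω]
    (hcop : (Module.finrank ℚ F).Coprime 21) :
    ∃ L : IntermediateField F Ω, FiniteDimensional F L ∧ IsGalois F L ∧
      Nat.card Gal(L/F) = 21 ∧ ∃ a b : Gal(L/F), a * b ≠ b * a := by
  have hcl : IsAlgClosed Ω := IsAlgClosure.isAlgClosed F
  have hch : CharZero Ω := charZero_of_injective_algebraMap (algebraMap F Ω).injective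
  have e7 : ∃ x : Ω, aeval x F7 = 0 := by
    have hd : (F7.map (algebraMap ℤ Ω)).degree ≠ 0 := by
      rw [degree_eq_natDegree (F7_monic.map _).ne_zero, F7_monic.natDegree_map, F7_natDegree]
      norm_num
    obtain ⟨x, hx⟩ := IsAlgClosed.exists_root _ hd
    refine ⟨x, ?_⟩
    rw [IsRoot.def, eval_map] at hx
    exact hx
  have e3 : ∃ y : Ω, aeval y C3 = 0 := by
    have hd : (C3.map (algebraMap ℤ Ω)).degree ≠ 0 := by
      rw [degree_eq_natDegree (C3_monic.map _).ne_zero, C3_monic.natDegree_map, C3_natDegree]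
      norm_num
    obtain ⟨x, hx⟩ := IsAlgClosed.exists_root _ hd
    refine ⟨x, ?_⟩
    rw [IsRoot.def, eval_map] at hx
    exact hx
  have ex7 : ∀ {A : Type} [Field A] [CharZero A] (x : A), aeval x F7 = 0 ↔
      x ^ 7 - 8 * x ^ 5 - 2 * x ^ 4 + 16 * x ^ 3 + 6 * x ^ 2 - 6 * x - 2 = 0 := by
    intro A _ _ x
    unfold F7
    simp only [map_add, map_mul, map_pow, aeval_X, aeval_C]
    simp only [eq_intCast]
    push_cast
    constructor
    · intro h; linear_combination h
    · intro h; linear_combination h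
  have ex3 : ∀ {A : Type} [Field A] [CharZero A] (x : A), aeval x C3 = 0 ↔
      x ^ 3 + x ^ 2 - 24 * x - 27 = 0 := by
    intro A _ _ x
    unfold C3
    simp only [map_add, map_mul, map_pow, aeval_X, aeval_C]
    simp only [eq_intCast]
    push_cast
    constructor
    · intro h; linear_combination h
    · intro h; linear_combination h
  obtain ⟨x, hx⟩ := e7
  obtain ⟨y, hy⟩ := e3
  have hc7 : (Module.finrank ℚ F).Coprime 7 := Nat.Coprime.coprime_dvd_right (by norm_num) hcop
  have hc3 : (Module.finrank ℚ F).Coprime 3 := Nat.Coprime.coprime_dvd_right (by norm_num) hcop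
  let L : IntermediateField F Ω := IntermediateField.adjoin F {x, y}
  have hfd : FiniteDimensional F L := by
    apply IntermediateField.finiteDimensional_adjoin
    intro z _
    exact Algebra.IsIntegral.isIntegral z
  let xL : L := ⟨x, IntermediateField.subset_adjoin _ _ (by simp)⟩
  let yL : L := ⟨y, IntermediateField.subset_adjoin _ _ (by simp)⟩
  have hchL : CharZero L := charZero_of_injective_algebraMap (algebraMap F L).injective
  have hxL : aeval xL F7 = 0 := by
    rw [ex7]
    exact Subtype.ext ((ex7 x).mp hx)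
  have hyL : aeval yL C3 = 0 := by
    rw [ex3]
    exact Subtype.ext ((ex3 y).mp hy)
  have htop := GAL.adjoin_pair_top (K := F) x y xL yL rfl rfl
  have m7 := minpoly_over_F (F := F) F7 F7_monic (by norm_num) F7_natDegree F7_irrQ hc7 xL hxL
  have m3 := minpoly_over_F (F := F) C3 C3_monic (by norm_num) C3_natDegree C3_irrQ hc3 yL hyL
  have h := GAL.gal_field (K := F) xL yL ((ex7 xL).mp hxL) ((ex3 yL).mp hyL) htop
    (by rw [m7, F7_monic.natDegree_map, F7_natDegree])
    (by rw [m3, C3_monic.natDegree_map, C3_natDegree])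
    (by rw [m7, aeval_map_algebraMap, ex7]; exact gg_root ((ex7 xL).mp hxL) ((ex3 yL).mp hyL))
    (by rw [m3, aeval_map_algebraMap, ex3]; exact cub_root ((ex3 yL).mp hyL))
  exact ⟨L, hfd, h.1, h.2.1, h.2.2⟩

end Pool.Agent.Helper74.QE.GALF
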