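import Pool.Agent.Helper74.QE.Stm

/-!
# Module REPG: the group of order 21 in `GL_3` over the field with 8 elements (helper15)
-/

set_option autoImplicit false
set_option linter.style.haveILetI false

namespace Pool.Agent.Helper74.QE.REPG

open Matrix

/-- the generators -/
theorem gens (G : Type) [Group G] (hc : Nat.card G = 21) (hab : ∃ a b : G, a * b ≠ b * a) :
    ∃ n s : G, orderOf n = 7 ∧ orderOf s = 3 ∧ s * n * s⁻¹ = n ^ 2 ∧
      ∀ g : G, ∃ i j : ℕ, g = n ^ i * s ^ j := by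
  haveI : Finite G := Nat.finite_of_card_ne_zero (by rw [hc]; norm_num)
  haveI : Fact (Nat.Prime 7) := ⟨by norm_num⟩
  haveI : Fact (Nat.Prime 3) := ⟨by norm_num⟩
  obtain ⟨n, hn⟩ := exists_prime_orderOf_dvd_card' (G := G) 7 (by rw [hc]; norm_num)
  -- the Sylow subgroup
  obtain ⟨P⟩ : Nonempty (Sylow 7 G) := inferInstance
  have hP7 : Nat.card P = 7 := by
    rw [Sylow.card_eq_multiplicity, hc]
    have : Nat.factorization 21 7 = 1 := by
      rw [show (21 : ℕ) = 3 * 7 by norm_num,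
        Nat.factorization_mul (by norm_num) (by norm_num)]
      rw [Finsupp.add_apply, Nat.Prime.factorization_self (by norm_num),
        Nat.factorization_eq_zero_of_not_dvd (by norm_num : ¬ 7 ∣ 3)]
    rw [this, pow_one]
  have hidx : (P : Subgroup G).index = 3 := by
    have h1 := (P : Subgroup G).card_mul_index
    have h2 : Nat.card (P : Subgroup G) = 7 := hP7
    rw [hc, h2] at h1
    omega
  have hcs : Nat.card (Sylow 7 G) = 1 := by
    have h1 := card_sylow_modEq_one 7 G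
    have h2 : Nat.card (Sylow 7 G) ∣ 3 := by
      have := P.card_dvd_index
      rwa [hidx] at this
    rcases (Nat.dvd_prime (by norm_num)).1 h2 with h | h
    · exact h
    · rw [h] at h1
      exact absurd h1 (by decide)
  have hPn : (P : Subgroup G).Normal := by
    haveI : Subsingleton (Sylow 7 G) := (Nat.card_eq_one_iff_unique.1 hcs).1
    exact P.normal_of_subsingleton
  -- `n ∈ P`
  have hnP : Subgroup.zpowers n = (P : Subgroup G) := by
    have hpg : IsPGroup 7 (Subgroup.zpowers n) := by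
      apply IsPGroup.of_card (n := 1)
      rw [Nat.card_zpowers, hn, pow_one]
    obtain ⟨Q, hQ⟩ := hpg.exists_le_sylow
    haveI : Subsingleton (Sylow 7 G) := (Nat.card_eq_one_iff_unique.1 hcs).1
    rw [Subsingleton.elim Q P] at hQ
    refine Subgroup.eq_of_le_of_card_ge hQ ?_
    rw [Nat.card_zpowers, hn]
    exact hP7.le
  have key : ∀ s : G, orderOf s = 3 → ∀ g : G, ∃ i j : ℕ, g = n ^ i * s ^ j := by
    intro s hs
    have hinj : Function.Injective (fun x : Fin 7 × Fin 3 => n ^ (x.1 : ℕ) * s ^ (x.2 : ℕ)) := by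
      rintro ⟨i, j⟩ ⟨i', j'⟩ h
      have h0 : n ^ (i : ℕ) * s ^ (j : ℕ) = n ^ (i' : ℕ) * s ^ (j' : ℕ) := h
      have h1 : (n ^ (i' : ℕ))⁻¹ * n ^ (i : ℕ) = s ^ (j' : ℕ) * (s ^ (j : ℕ))⁻¹ := by
        rw [inv_mul_eq_iff_eq_mul, ← mul_assoc, eq_mul_inv_iff_mul_eq, h0]
      have h2 : ((n ^ (i' : ℕ))⁻¹ * n ^ (i : ℕ)) ∈ Subgroup.zpowers n :=
        Subgroup.mul_mem _ (Subgroup.inv_mem _ (Subgroup.npow_mem_zpowers _ _))
          (Subgroup.npow_mem_zpowers _ _)
      have h3 : ((n ^ (i' : ℕ))⁻¹ * n ^ (i : ℕ)) ∈ Subgroup.zpowers s := by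
        rw [h1]
        exact Subgroup.mul_mem _ (Subgroup.npow_mem_zpowers _ _)
          (Subgroup.inv_mem _ (Subgroup.npow_mem_zpowers _ _))
      have h4 := orderOf_dvd_of_mem_zpowers h2
      have h5 := orderOf_dvd_of_mem_zpowers h3
      rw [hn] at h4
      rw [hs] at h5
      have h6 : orderOf ((n ^ (i' : ℕ))⁻¹ * n ^ (i : ℕ)) = 1 :=
        Nat.eq_one_of_dvd_coprimes (by norm_num : Nat.Coprime 7 3) h4 h5
      rw [orderOf_eq_one_iff] at h6
      have h7 : n ^ (i : ℕ) = n ^ (i' : ℕ) := by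
        rw [inv_mul_eq_one] at h6
        exact h6.symm
      have h8 : s ^ (j : ℕ) = s ^ (j' : ℕ) := by
        rw [h1, mul_inv_eq_one] at h6
        exact h6.symm
      have h9 : (i : ℕ) = i' := pow_injOn_Iio_orderOf (by rw [hn]; exact i.2) (by rw [hn]; exact i'.2) h7
      have h10 : (j : ℕ) = j' := pow_injOn_Iio_orderOf (by rw [hs]; exact j.2) (by rw [hs]; exact j'.2) h8
      exact Prod.ext (Fin.ext h9) (Fin.ext h10)
    haveI : Fintype G := Fintype.ofFinite G
    have hbij : Function.Bijective (fun x : Fin 7 × Fin 3 => n ^ (x.1 : ℕ) * s ^ (x.2 : ℕ)) := by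
      rw [Fintype.bijective_iff_injective_and_card]
      refine ⟨hinj, ?_⟩
      rw [← Nat.card_eq_fintype_card (α := G), hc]
      simp
    intro g
    obtain ⟨x, hx⟩ := hbij.2 g
    exact ⟨x.1, x.2, hx.symm⟩
  obtain ⟨s, hs⟩ := exists_prime_orderOf_dvd_card' (G := G) 3 (by rw [hc]; norm_num)
  have hconj : s * n * s⁻¹ ∈ Subgroup.zpowers n := by
    rw [hnP]
    exact hPn.conj_mem n (by rw [← hnP]; exact Subgroup.mem_zpowers n) s
  obtain ⟨r, hr7, hr⟩ : ∃ r : ℕ, r < 7 ∧ s * n * s⁻¹ = n ^ r := by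
    obtain ⟨z, hz⟩ := Subgroup.mem_zpowers_iff.1 hconj
    refine ⟨(z % 7).toNat, ?_, ?_⟩
    · have := Int.emod_lt_of_pos z (by norm_num : (0 : ℤ) < 7)
      have := Int.emod_nonneg z (by norm_num : (7 : ℤ) ≠ 0)
      omega
    · have h0 : (((z % 7).toNat : ℕ) : ℤ) = z % 7 := Int.toNat_of_nonneg (Int.emod_nonneg z (by norm_num))
      rw [← hz, ← zpow_natCast, h0]
      conv_lhs => rw [← zpow_mod_orderOf, hn]
      rfl
  have hconjp : ∀ m : ℕ, s * n ^ m * s⁻¹ = n ^ (r * m) := by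
    intro m
    rw [pow_mul, ← hr, conj_pow]
  have hr3 : n ^ (r * (r * r)) = n := by
    have h3 : s ^ 3 = 1 := by rw [← hs]; exact pow_orderOf_eq_one s
    have h1 : s * (s * (s * n * s⁻¹) * s⁻¹) * s⁻¹ = n := by
      calc s * (s * (s * n * s⁻¹) * s⁻¹) * s⁻¹ = s ^ 3 * n * (s ^ 3)⁻¹ := by
            simp only [pow_succ, pow_zero, one_mul, _root_.mul_inv_rev, mul_assoc]
        _ = n := by rw [h3]; simp
    rw [hr, hconjp, hconjp] at h1
    exact h1
  have hmod : r * (r * r) % 7 = 1 := by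
    have h1 : n ^ (r * (r * r)) = n ^ 1 := by rw [hr3, pow_one]
    rw [pow_inj_mod, hn] at h1
    exact h1
  have hr124 : r = 1 ∨ r = 2 ∨ r = 4 := by
    interval_cases r <;> simp_all
  rcases hr124 with rfl | rfl | rfl
  · -- abelian
    exfalso
    obtain ⟨a, b, hab'⟩ := hab
    apply hab'
    have hcomm : Commute s n := by
      rw [pow_one] at hr
      exact mul_inv_eq_iff_eq_mul.1 hr
    obtain ⟨i, j, rfl⟩ := key s hs a
    obtain ⟨i', j', rfl⟩ := key s hs b
    have c1 : Commute (n ^ i * s ^ j) (n ^ i' * s ^ j') := by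
      refine Commute.mul_left (Commute.mul_right ?_ ?_) (Commute.mul_right ?_ ?_)
      · exact (Commute.refl n).pow_pow _ _
      · exact (hcomm.symm.pow_pow _ _)
      · exact (hcomm.pow_pow _ _)
      · exact (Commute.refl s).pow_pow _ _
    exact c1
  · exact ⟨n, s, hn, hs, hr, key s hs⟩
  · refine ⟨n, s ^ 2, hn, ?_, ?_, key (s ^ 2) ?_⟩
    · rw [orderOf_pow, hs]; decide
    · have h1 : s ^ 2 * n * (s ^ 2)⁻¹ = s * (s * n * s⁻¹) * s⁻¹ := by
        simp only [pow_succ, pow_zero, one_mul, _root_.mul_inv_rev, mul_assoc]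
      rw [h1, hr, hconjp]
      have h2 : n ^ 7 = 1 := by rw [← hn]; exact pow_orderOf_eq_one n
      calc n ^ (4 * 4) = (n ^ 7) ^ 2 * n ^ 2 := by rw [← pow_mul, ← pow_add]
        _ = n ^ 2 := by rw [h2, one_pow, one_mul]
    · rw [orderOf_pow, hs]; decide

/-- the homomorphism to a group with elements `A`, `B` of the same kind -/
theorem hom (G : Type) [Group G] (n s : G) (hn : orderOf n = 7) (hs : orderOf s = 3)
    (hr : s * n * s⁻¹ = n ^ 2) (hg : ∀ g : G, ∃ i j : ℕ, g = n ^ i * s ^ j)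
    (M : Type) [Group M] (A B : M) (hA : A ^ 7 = 1) (hB : B ^ 3 = 1) (hAB : B * A * B⁻¹ = A ^ 2) :
    ∃ ρ : G →* M, ∀ i j : ℕ, ρ (n ^ i * s ^ j) = A ^ i * B ^ j := by
  have hcop : ∀ i j i' j' : ℕ, n ^ i * s ^ j = n ^ i' * s ^ j' → A ^ i * B ^ j = A ^ i' * B ^ j' := by
    intro i j i' j' h0
    have h1 : (n ^ i')⁻¹ * n ^ i = s ^ j' * (s ^ j)⁻¹ := by
      rw [inv_mul_eq_iff_eq_mul, ← mul_assoc, eq_mul_inv_iff_mul_eq, h0]
    have h2 : ((n ^ i')⁻¹ * n ^ i) ∈ Subgroup.zpowers n :=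
      Subgroup.mul_mem _ (Subgroup.inv_mem _ (Subgroup.npow_mem_zpowers _ _))
        (Subgroup.npow_mem_zpowers _ _)
    have h3 : ((n ^ i')⁻¹ * n ^ i) ∈ Subgroup.zpowers s := by
      rw [h1]
      exact Subgroup.mul_mem _ (Subgroup.npow_mem_zpowers _ _)
        (Subgroup.inv_mem _ (Subgroup.npow_mem_zpowers _ _))
    have h4 := orderOf_dvd_of_mem_zpowers h2
    have h5 := orderOf_dvd_of_mem_zpowers h3
    rw [hn] at h4
    rw [hs] at h5
    have h6 : orderOf ((n ^ i')⁻¹ * n ^ i) = 1 :=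
      Nat.eq_one_of_dvd_coprimes (by norm_num : Nat.Coprime 7 3) h4 h5
    rw [orderOf_eq_one_iff] at h6
    have h7 : n ^ i = n ^ i' := by
      rw [inv_mul_eq_one] at h6
      exact h6.symm
    have h8 : s ^ j = s ^ j' := by
      rw [h1, mul_inv_eq_one] at h6
      exact h6.symm
    rw [pow_inj_mod, hn] at h7
    rw [pow_inj_mod, hs] at h8
    have h9 : A ^ i = A ^ i' := by
      rw [← Nat.div_add_mod i 7, ← Nat.div_add_mod i' 7, h7, pow_add, pow_add, pow_mul, pow_mul, hA,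
        one_pow, one_pow]
    have h10 : B ^ j = B ^ j' := by
      rw [← Nat.div_add_mod j 3, ← Nat.div_add_mod j' 3, h8, pow_add, pow_add, pow_mul, pow_mul, hB,
        one_pow, one_pow]
    rw [h9, h10]
  have hcj : ∀ (X : Type) [Group X] (a b : X), b * a * b⁻¹ = a ^ 2 → ∀ j i : ℕ,
      b ^ j * a ^ i = a ^ (2 ^ j * i) * b ^ j := by
    intro X _ a b hab j
    have h1 : ∀ i : ℕ, b * a ^ i = a ^ (2 * i) * b := by
      intro i
      rw [pow_mul, ← hab, conj_pow, inv_mul_cancel_right]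
    induction j with
    | zero => intro i; simp
    | succ j ih =>
      intro i
      rw [pow_succ, mul_assoc, h1, ← mul_assoc, ih, mul_assoc]
      congr 2
      ring
  choose I J hIJ using hg
  refine ⟨MonoidHom.mk' (fun g => A ^ I g * B ^ J g) ?_, ?_⟩
  · intro g h
    have h1 : g * h = n ^ (I g + 2 ^ J g * I h) * s ^ (J g + J h) := by
      conv_lhs => rw [hIJ g, hIJ h]
      rw [mul_assoc, ← mul_assoc (s ^ J g), hcj G n s hr, pow_add, pow_add]
      simp only [mul_assoc]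
    have h2 : n ^ I (g * h) * s ^ J (g * h) = n ^ (I g + 2 ^ J g * I h) * s ^ (J g + J h) := by
      rw [← hIJ (g * h), h1]
    rw [hcop _ _ _ _ h2]
    rw [mul_assoc, ← mul_assoc (B ^ J g), hcj M A B hAB, pow_add, pow_add]
    simp only [mul_assoc]
  · intro i j
    exact hcop _ _ _ _ (hIJ _).symm

/-- diagonal matrix `diag(z, z², z⁴)` -/
def Am {k : Type} [Field k] (z : k) : Matrix (Fin 3) (Fin 3) k := !![z, 0, 0; 0, z ^ 2, 0; 0, 0, z ^ 4]

/-- the permutation matrix -/
def Bm (k : Type) [Field k] : Matrix (Fin 3) (Fin 3) k := !![0, 1, 0; 0, 0, 1; 1, 0, 0]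

theorem Am_pow {k : Type} [Field k] (z : k) (i : ℕ) : Am z ^ i = Am (z ^ i) := by
  induction i with
  | zero =>
    ext a b
    fin_cases a <;> fin_cases b <;> simp [Am]
  | succ i ih =>
    rw [pow_succ, ih]
    ext a b
    fin_cases a <;> fin_cases b <;> simp [Am, Matrix.mul_apply, Fin.sum_univ_three] <;> ring

theorem Bm_three (k : Type) [Field k] : Bm k ^ 3 = 1 := by
  ext a b
  fin_cases a <;> fin_cases b <;> simp [Bm, pow_succ, Matrix.mul_apply, Fin.sum_univ_three]

theorem BA {k : Type} [Field k] (z : k) (hz : z ^ 7 = 1) : Bm k * Am z = Am z ^ 2 * Bm k := by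
  rw [Am_pow]
  have h8 : (z ^ 2) ^ 4 = z := by
    calc (z ^ 2) ^ 4 = z ^ 7 * z := by ring
      _ = z := by rw [hz, one_mul]
  ext a b
  fin_cases a <;> fin_cases b <;>
    simp [Bm, Am, Matrix.mul_apply, Fin.sum_univ_three, h8] <;> ring

theorem Am_one {k : Type} [Field k] : Am (1 : k) = 1 := by
  ext a b
  fin_cases a <;> fin_cases b <;> simp [Am]

/-- an element of order 7 of the field with 8 elements -/
theorem exists_z (k : Type) [Field k] [Finite k] (h : Nat.card k = 8) :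
    ∃ z : k, z ^ 7 = 1 ∧ z ≠ 1 := by
  classical
  haveI := Fintype.ofFinite k
  have hc : Fintype.card k = 8 := by rw [← Nat.card_eq_fintype_card, h]
  obtain ⟨z, hz⟩ : ∃ z : k, z ∉ ({0, 1} : Finset k) := by
    by_contra hcon
    push Not at hcon
    have h1 : (Finset.univ : Finset k).card ≤ ({0, 1} : Finset k).card :=
      Finset.card_le_card fun x _ => hcon x
    have h2 : ({0, 1} : Finset k).card ≤ 2 := Finset.card_le_two
    rw [Finset.card_univ, hc] at h1
    omega
  simp only [Finset.mem_insert, Finset.mem_singleton, not_or] at hz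
  refine ⟨z, ?_, hz.2⟩
  have h1 := FiniteField.pow_card_sub_one_eq_one z hz.1
  rwa [hc] at h1

theorem pow_ne {k : Type} [Field k] (z : k) (hz : z ^ 7 = 1) (hz1 : z ≠ 1) (i : ℕ) (hi : ¬ 7 ∣ i) :
    z ^ i ≠ 1 := by
  intro h
  have h1 : orderOf z ∣ 7 := orderOf_dvd_of_pow_eq_one hz
  rcases (Nat.dvd_prime (by norm_num)).1 h1 with h2 | h2
  · exact hz1 (orderOf_eq_one_iff.1 h2)
  · rw [← h2] at hi
    exact hi (orderOf_dvd_of_pow_eq_one h)

theorem Am_mulVec {K : Type} [Field K] (z : K) (y : Fin 3 → K) :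
    (Am z).mulVec y = ![z * y 0, z ^ 2 * y 1, z ^ 4 * y 2] := by
  ext b
  fin_cases b <;> simp [Am, Matrix.mulVec, dotProduct, Fin.sum_univ_three]

/-- a submodule stable under `A` and `B` -/
theorem irr {K : Type} [Field K] (z : K) (hz : z ^ 7 = 1) (hz1 : z ≠ 1)
    (V : Submodule K (Fin 3 → K)) (hA : ∀ x ∈ V, (Am z).mulVec x ∈ V)
    (hB : ∀ x ∈ V, (Bm K).mulVec x ∈ V) : V = ⊥ ∨ V = ⊤ := by
  by_cases hV : V = ⊥
  · exact Or.inl hV
  right
  obtain ⟨x, hx, hx0⟩ := Submodule.exists_mem_ne_zero_of_ne_bot hV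
  have z0 : z ≠ 0 := by
    rintro rfl
    norm_num at hz
  have e12 : z ^ 2 - z ≠ 0 := by
    intro h
    have h1 : z * (z - 1) = 0 := by linear_combination h
    rcases mul_eq_zero.1 h1 with h2 | h2
    · exact z0 h2
    · exact hz1 (sub_eq_zero.1 h2)
  have e14 : z ^ 4 - z ≠ 0 := by
    intro h
    have h1 : z * (z ^ 3 - 1) = 0 := by linear_combination h
    rcases mul_eq_zero.1 h1 with h2 | h2
    · exact z0 h2
    · exact pow_ne z hz hz1 3 (by norm_num) (sub_eq_zero.1 h2)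
  have e24 : z ^ 4 - z ^ 2 ≠ 0 := by
    intro h
    have h1 : z ^ 2 * (z ^ 2 - 1) = 0 := by linear_combination h
    rcases mul_eq_zero.1 h1 with h2 | h2
    · exact z0 (pow_eq_zero_iff (two_ne_zero) |>.1 h2)
    · exact pow_ne z hz hz1 2 (by norm_num) (sub_eq_zero.1 h2)
  have step : ∀ c : K, ∀ y ∈ V, (Am z).mulVec y - c • y ∈ V := fun c y hy =>
    V.sub_mem (hA y hy) (V.smul_mem c hy)
  -- some unit vector is in `V`
  have hunit : ∃ a : Fin 3, Pi.single a (1 : K) ∈ V := by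
    obtain ⟨a, ha⟩ : ∃ a, x a ≠ 0 := by
      by_contra hcon
      push Not at hcon
      exact hx0 (funext hcon)
    refine ⟨a, ?_⟩
    fin_cases a
    · have h1 := step (z ^ 2) _ (step (z ^ 4) x hx)
      have h2 : (Am z).mulVec ((Am z).mulVec x - z ^ 4 • x) - z ^ 2 • ((Am z).mulVec x - z ^ 4 • x) =
          ((z ^ 4 - z) * (z ^ 2 - z) * x 0) • Pi.single 0 (1 : K) := by
        rw [Am_mulVec, Am_mulVec]
        ext b
        fin_cases b <;>
          simp only [Pi.sub_apply, Pi.smul_apply, smul_eq_mul, Pi.single_apply] <;> simp <;> ring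
      rw [h2] at h1
      exact (V.smul_mem_iff (mul_ne_zero (mul_ne_zero e14 e12) ha)).1 h1
    · have h1 := step z _ (step (z ^ 4) x hx)
      have h2 : (Am z).mulVec ((Am z).mulVec x - z ^ 4 • x) - z • ((Am z).mulVec x - z ^ 4 • x) =
          (-(z ^ 4 - z ^ 2) * (z ^ 2 - z) * x 1) • Pi.single 1 (1 : K) := by
        rw [Am_mulVec, Am_mulVec]
        ext b
        fin_cases b <;>
          simp only [Pi.sub_apply, Pi.smul_apply, smul_eq_mul, Pi.single_apply] <;> simp <;> ring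
      rw [h2] at h1
      exact (V.smul_mem_iff (mul_ne_zero (mul_ne_zero (neg_ne_zero.2 e24) e12) ha)).1 h1
    · have h1 := step z _ (step (z ^ 2) x hx)
      have h2 : (Am z).mulVec ((Am z).mulVec x - z ^ 2 • x) - z • ((Am z).mulVec x - z ^ 2 • x) =
          ((z ^ 4 - z ^ 2) * (z ^ 4 - z) * x 2) • Pi.single 2 (1 : K) := by
        rw [Am_mulVec, Am_mulVec]
        ext b
        fin_cases b <;>
          simp only [Pi.sub_apply, Pi.smul_apply, smul_eq_mul, Pi.single_apply] <;> simp <;> ring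
      rw [h2] at h1
      exact (V.smul_mem_iff (mul_ne_zero (mul_ne_zero e24 e14) ha)).1 h1
  have hrot : ∀ a : Fin 3, Pi.single a (1 : K) ∈ V → Pi.single (a - 1) (1 : K) ∈ V := by
    intro a ha
    have h1 := hB _ ha
    have h2 : (Bm K).mulVec (Pi.single a (1 : K)) = Pi.single (a - 1) (1 : K) := by
      ext b
      fin_cases a <;> fin_cases b <;>
        simp [Bm, Matrix.mulVec, dotProduct, Fin.sum_univ_three, Pi.single_apply] <;> decide
    rwa [h2] at h1
  have hall : ∀ a : Fin 3, Pi.single a (1 : K) ∈ V := by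
    obtain ⟨a, ha⟩ := hunit
    have h1 := hrot a ha
    have h2 := hrot _ h1
    intro b
    have hfin : ∀ a b : Fin 3, b = a ∨ b = a - 1 ∨ b = a - 1 - 1 := by decide
    have := hfin a b
    rcases this with rfl | rfl | rfl
    · exact ha
    · exact h1
    · exact h2
  rw [eq_top_iff]
  intro y _
  have : y = ∑ a, y a • Pi.single a (1 : K) := by
    rw [← pi_eq_sum_univ' y]
  rw [this]
  exact V.sum_mem fun a _ => V.smul_mem _ (hall a)

theorem main : S_REPG := by
  intro G _ hc hab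
  obtain ⟨n, s, hn, hs, hr, hg⟩ := gens G hc hab
  haveI : Fact (Nat.Prime 2) := ⟨Nat.prime_two⟩
  let k := GaloisField 2 3
  haveI : Finite k := inferInstance
  have hk : Nat.card k = 8 := by rw [GaloisField.card 2 3 (by norm_num)]; norm_num
  obtain ⟨z, hz, hz1⟩ := exists_z k hk
  have hA7 : Am z ^ 7 = 1 := by rw [Am_pow, hz, Am_one]
  let A : GL (Fin 3) k := ⟨Am z, Am z ^ 6, by rw [← pow_succ', hA7], by rw [← pow_succ, hA7]⟩
  let B : GL (Fin 3) k := ⟨Bm k, Bm k ^ 2, by rw [← pow_succ', Bm_three], by rw [← pow_succ, Bm_three]⟩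
  have hA : A ^ 7 = 1 := Units.ext (by
    show (Am z) ^ 7 = 1
    exact hA7)
  have hB : B ^ 3 = 1 := Units.ext (by
    show (Bm k) ^ 3 = 1
    exact Bm_three k)
  have hAB : B * A * B⁻¹ = A ^ 2 := by
    rw [mul_inv_eq_iff_eq_mul]
    refine Units.ext ?_
    show Bm k * Am z = Am z ^ 2 * Bm k
    exact BA z hz
  obtain ⟨ρ, hρ⟩ := hom G n s hn hs hr hg (GL (Fin 3) k) A B hA hB hAB
  have hρc : ∀ i j : ℕ, (ρ (n ^ i * s ^ j) : Matrix (Fin 3) (Fin 3) k) = Am (z ^ i) * Bm k ^ j := by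
    intro i j
    rw [hρ, ← Am_pow]
    rfl
  refine ⟨k, inferInstance, inferInstance, inferInstance, ρ, ?_, ?_⟩
  · rw [injective_iff_map_eq_one]
    intro g h
    obtain ⟨i, j, rfl⟩ := hg g
    have h1 := hρc i j
    rw [h] at h1
    have h1' : (1 : Matrix (Fin 3) (Fin 3) k) = Am (z ^ i) * Bm k ^ (j % 3) := by
      have : Bm k ^ j = Bm k ^ (j % 3) := by
        conv_lhs => rw [← Nat.div_add_mod j 3, pow_add, pow_mul, Bm_three, one_pow, one_mul]
      rw [← this, ← h1]
      rfl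
    have h00 := congrFun (congrFun h1' 0) 0
    have hj3 : j % 3 = 0 ∨ j % 3 = 1 ∨ j % 3 = 2 := by omega
    rcases hj3 with hj | hj | hj
    · rw [hj, pow_zero, mul_one] at h00
      have h2 : z ^ i = 1 := by
        simpa [Am] using h00.symm
      have h3 : 7 ∣ i := by
        by_contra hcon
        exact pow_ne z hz hz1 i hcon h2
      obtain ⟨t, rfl⟩ := h3
      obtain ⟨u, rfl⟩ : ∃ u, j = 3 * u := ⟨j / 3, by omega⟩
      have hn7 : n ^ 7 = 1 := by rw [← hn]; exact pow_orderOf_eq_one n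
      have hs3 : s ^ 3 = 1 := by rw [← hs]; exact pow_orderOf_eq_one s
      rw [pow_mul, pow_mul, hn7, hs3, one_pow, one_pow, one_mul]
    · rw [hj, pow_one] at h00
      exfalso
      simp [Am, Bm, Matrix.mul_apply, Fin.sum_univ_three] at h00
    · rw [hj] at h00
      exfalso
      simp [Am, Bm, pow_succ, Matrix.mul_apply, Fin.sum_univ_three] at h00
  · intro V hV
    have hmapA : ((ρ n : Matrix (Fin 3) (Fin 3) k).map (algebraMap k (AlgebraicClosure k))) =
        Am (algebraMap k (AlgebraicClosure k) z) := by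
      have h1 := hρc 1 0
      rw [pow_one, pow_one, pow_zero, pow_zero, mul_one, mul_one] at h1
      rw [h1]
      ext a b
      fin_cases a <;> fin_cases b <;> simp [Am]
    have hmapB : ((ρ s : Matrix (Fin 3) (Fin 3) k).map (algebraMap k (AlgebraicClosure k))) =
        Bm (AlgebraicClosure k) := by
      have h1 := hρc 0 1
      rw [pow_one, pow_one, pow_zero, pow_zero, one_mul, Am_one, one_mul] at h1
      rw [h1]
      ext a b
      fin_cases a <;> fin_cases b <;> simp [Bm]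
    refine irr (algebraMap k (AlgebraicClosure k) z) (by rw [← map_pow, hz, map_one]) (fun h => hz1 ?_)
      V (fun x hx => ?_) (fun x hx => ?_)
    · exact (algebraMap k (AlgebraicClosure k)).injective (by rw [h, map_one])
    · rw [← hmapA]
      exact hV n x hx
    · rw [← hmapB]
      exact hV s x hx

end Pool.Agent.Helper74.QE.REPG
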