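import Pool.Agent.Helper74.QE.GalA

/-!
# A non-abelian Galois extension of `ℚ` of degree 21 (helper74)
-/

set_option autoImplicit false

namespace Pool.Agent.Helper74.QE.GAL

open Polynomial IntermediateField

/-- nonabelian -/
theorem gal_field {K L : Type} [Field K] [CharZero K] [Field L] [CharZero L] [Algebra K L]
    [FiniteDimensional K L] (x y : L)
    (hx : x ^ 7 - 8 * x ^ 5 - 2 * x ^ 4 + 16 * x ^ 3 + 6 * x ^ 2 - 6 * x - 2 = 0)
    (hy : y ^ 3 + y ^ 2 - 24 * y - 27 = 0)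
    (htop : IntermediateField.adjoin K {x, y} = ⊤)
    (h7 : (minpoly K x).natDegree = 7) (h3 : (minpoly K y).natDegree = 3)
    (hx' : aeval (gg x y) (minpoly K x) = 0)
    (hy' : aeval (-6 - 2 / 3 * y + 1 / 3 * y ^ 2) (minpoly K y) = 0) :
    IsGalois K L ∧ Nat.card (L ≃ₐ[K] L) = 21 ∧ ∃ a b : L ≃ₐ[K] L, a * b ≠ b * a := by
  obtain ⟨hG, hc, ⟨τ, hτx, hτy⟩, ⟨σ, hσx, hσy⟩, -, -⟩ := main_of x y (gg x y)
    (-6 - 2 / 3 * y + 1 / 3 * y ^ 2) htop (p := 7) (q := 3) (by norm_num) (by norm_num) (by norm_num)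
    h7 h3 hx' (ne_x hx hy) hy' (ne_y hy)
  refine ⟨hG, by rw [hc], σ, τ, ?_⟩
  intro h
  have h1 : σ (τ x) = τ (σ x) := by
    have := congrArg (fun g : L ≃ₐ[K] L => g x) h
    exact this
  rw [hσx, hτx] at h1
  have h2 : σ (gg x y) = gg x (-6 - 2 / 3 * y + 1 / 3 * y ^ 2) := by
    rw [← hσy]
    unfold gg
    simp only [map_add, map_sub, map_mul, map_pow, map_div₀, map_ofNat, map_one, hσx]
  rw [h2] at h1
  exact ne_gg hx hy h1

theorem adjoin_pair_top {K Ω : Type} [Field K] [Field Ω] [Algebra K Ω] (x y : Ω)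
    (x' y' : IntermediateField.adjoin K {x, y}) (hx : (x' : Ω) = x) (hy : (y' : Ω) = y) :
    IntermediateField.adjoin K {x', y'} = ⊤ := by
  apply IntermediateField.map_injective (IntermediateField.adjoin K {x, y}).val
  rw [IntermediateField.adjoin_map, Set.image_pair, ← AlgHom.fieldRange_eq_map, IntermediateField.fieldRange_val]
  show IntermediateField.adjoin K {(x' : Ω), (y' : Ω)} = _
  rw [hx, hy]

theorem main : S_GAL := by
  have e7 : ∃ x : AlgebraicClosure ℚ,
      x ^ 7 - 8 * x ^ 5 - 2 * x ^ 4 + 16 * x ^ 3 + 6 * x ^ 2 - 6 * x - 2 = 0 := by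
    have hd : (F7.map (algebraMap ℤ (AlgebraicClosure ℚ))).degree ≠ 0 := by
      rw [degree_eq_natDegree (F7_monic.map _).ne_zero, F7_monic.natDegree_map, F7_natDegree]
      norm_num
    obtain ⟨x, hx⟩ := IsAlgClosed.exists_root _ hd
    refine ⟨x, ?_⟩
    rw [IsRoot.def, eval_map] at hx
    unfold F7 at hx
    simp only [eval₂_add, eval₂_mul, eval₂_pow, eval₂_X, eval₂_C] at hx
    simp only [eq_intCast] at hx
    push_cast at hx
    linear_combination hx
  have e3 : ∃ y : AlgebraicClosure ℚ, y ^ 3 + y ^ 2 - 24 * y - 27 = 0 := by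
    have hd : (C3.map (algebraMap ℤ (AlgebraicClosure ℚ))).degree ≠ 0 := by
      rw [degree_eq_natDegree (C3_monic.map _).ne_zero, C3_monic.natDegree_map, C3_natDegree]
      norm_num
    obtain ⟨x, hx⟩ := IsAlgClosed.exists_root _ hd
    refine ⟨x, ?_⟩
    rw [IsRoot.def, eval_map] at hx
    unfold C3 at hx
    simp only [eval₂_add, eval₂_mul, eval₂_pow, eval₂_X, eval₂_C] at hx
    simp only [eq_intCast] at hx
    push_cast at hx
    linear_combination hx
  obtain ⟨x, hx⟩ := e7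
  obtain ⟨y, hy⟩ := e3
  let L : IntermediateField ℚ (AlgebraicClosure ℚ) := IntermediateField.adjoin ℚ {x, y}
  have hfd : FiniteDimensional ℚ L := by
    apply IntermediateField.finiteDimensional_adjoin
    rintro z (rfl | rfl)
    · exact int_7 hx
    · exact int_3 hy
  let xL : L := ⟨x, IntermediateField.subset_adjoin _ _ (by simp)⟩
  let yL : L := ⟨y, IntermediateField.subset_adjoin _ _ (by simp)⟩
  have hxL : xL ^ 7 - 8 * xL ^ 5 - 2 * xL ^ 4 + 16 * xL ^ 3 + 6 * xL ^ 2 - 6 * xL - 2 = 0 :=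
    Subtype.ext hx
  have hyL : yL ^ 3 + yL ^ 2 - 24 * yL - 27 = 0 := Subtype.ext hy
  have htop := adjoin_pair_top (K := ℚ) x y xL yL rfl rfl
  have h := gal_field xL yL hxL hyL htop
    (by rw [@minpoly_7 L _ L.algebra' xL hxL, F7_monic.natDegree_map, F7_natDegree])
    (by rw [@minpoly_3 L _ L.algebra' yL hyL, C3_monic.natDegree_map, C3_natDegree])
    (by rw [@minpoly_7 L _ L.algebra' xL hxL, ← @minpoly_7 L _ L.algebra' _ (gg_root hxL hyL)]
        exact minpoly.aeval ℚ _)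
    (by rw [@minpoly_3 L _ L.algebra' yL hyL, ← @minpoly_3 L _ L.algebra' _ (cub_root hyL)]
        exact minpoly.aeval ℚ _)
  exact ⟨L, hfd, h.1, h.2.1, h.2.2⟩

end Pool.Agent.Helper74.QE.GAL
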