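import Mathlib

/-!
# Composita of simple extensions of degrees 7 and 3 with automorphisms (helper74)
-/

set_option autoImplicit false

namespace Pool.Agent.Helper74.QE

open Polynomial IntermediateField

/-- A simple extension of prime degree, in which a second root of the minimal polynomial of the generator
exists, is Galois; moreover there is an automorphism which maps the generator to the second root. -/
theorem galois_of_root {K M : Type} [Field K] [Field M] [Algebra K M] [CharZero K] [FiniteDimensional K M]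
    {p : ℕ} (hp : p.Prime) (hM : Module.finrank K M = p) (x x' : M) (hx : K⟮x⟯ = ⊤)
    (hx' : aeval x' (minpoly K x) = 0) (hne : x' ≠ x) :
    IsGalois K M ∧ ∃ τ : M ≃ₐ[K] M, τ x = x' := by
  have hint : IsIntegral K x := Algebra.IsIntegral.isIntegral x
  let pb := IntermediateField.adjoin.powerBasis hint
  have hgen : minpoly K pb.gen = minpoly K x := by
    rw [IntermediateField.adjoin.powerBasis_gen, IntermediateField.minpoly_gen]
  let φ : K⟮x⟯ →ₐ[K] M := pb.lift x' (by rw [hgen]; exact hx')
  let e : M ≃ₐ[K] K⟮x⟯ := ((IntermediateField.equivOfEq hx).trans IntermediateField.topEquiv).symm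
  let τ₀ : M →ₐ[K] M := φ.comp (e : M →ₐ[K] K⟮x⟯)
  have hτ₀ : τ₀ x = x' := by
    have h1 : e x = pb.gen := by
      rw [IntermediateField.adjoin.powerBasis_gen]
      apply ((IntermediateField.equivOfEq hx).trans IntermediateField.topEquiv).injective
      show ((IntermediateField.equivOfEq hx).trans IntermediateField.topEquiv)
        (((IntermediateField.equivOfEq hx).trans IntermediateField.topEquiv).symm x) = _
      rw [AlgEquiv.apply_symm_apply]
      rfl
    show φ (e x) = x'
    rw [h1]
    exact pb.lift_gen x' _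
  let τ : M ≃ₐ[K] M := AlgEquiv.ofBijective τ₀ (Algebra.IsAlgebraic.algHom_bijective τ₀)
  have hτ : τ x = x' := hτ₀
  refine ⟨?_, τ, hτ⟩
  have : IsSimpleOrder (IntermediateField K M) :=
    IntermediateField.isSimpleOrder_of_finrank_prime K M (by rw [hM]; exact hp)
  apply IsGalois.of_fixedField_eq_bot
  rcases IsSimpleOrder.eq_bot_or_eq_top (IntermediateField.fixedField (⊤ : Subgroup (M ≃ₐ[K] M))) with h | h
  · exact h
  · exfalso
    have h1 : x ∈ IntermediateField.fixedField (⊤ : Subgroup (M ≃ₐ[K] M)) := by rw [h]; trivial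
    rw [IntermediateField.mem_fixedField_iff] at h1
    exact hne (hτ ▸ h1 τ trivial)

section

variable {K L : Type} [Field K] [CharZero K] [Field L] [Algebra K L] [FiniteDimensional K L]

omit [CharZero K] [FiniteDimensional K L] in
lemma adj_top (x y : L) (htop : IntermediateField.adjoin K {x, y} = ⊤) : K⟮y⟯⟮x⟯ = ⊤ := by
  have h := IntermediateField.adjoin_simple_adjoin_simple K y x
  rw [Set.pair_comm, htop] at h
  exact (IntermediateField.restrictScalars_eq_top_iff (K := K)).mp h

omit [CharZero K] in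
lemma finrank_sup (x y : L) (htop : IntermediateField.adjoin K {x, y} = ⊤) {p q : ℕ}
    (hpq : p.Coprime q)
    (hx : (minpoly K x).natDegree = p) (hy : (minpoly K y).natDegree = q) :
    Module.finrank K K⟮x⟯ = p ∧ Module.finrank K K⟮y⟯ = q ∧ Module.finrank K L = p * q ∧
      Module.finrank K⟮y⟯ L = p := by
  have h7 : Module.finrank K K⟮x⟯ = p := by
    rw [IntermediateField.adjoin.finrank (Algebra.IsIntegral.isIntegral x), hx]
  have h3 : Module.finrank K K⟮y⟯ = q := by
    rw [IntermediateField.adjoin.finrank (Algebra.IsIntegral.isIntegral y), hy]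
  have e7 := Module.finrank_mul_finrank K K⟮x⟯ L
  have e3 := Module.finrank_mul_finrank K K⟮y⟯ L
  have hsup : K⟮x⟯ ⊔ K⟮y⟯ = ⊤ := by
    rw [← IntermediateField.adjoin_union, ← htop]
    congr 1
  have hle : Module.finrank K L ≤ p * q := by
    have h1 := IntermediateField.finrank_sup_le K⟮x⟯ K⟮y⟯
    rw [hsup, IntermediateField.finrank_top', h7, h3] at h1
    exact h1
  have hpos : 0 < Module.finrank K L := Module.finrank_pos
  rw [h7] at e7
  rw [h3] at e3
  have h21 : Module.finrank K L = p * q := by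
    refine le_antisymm hle (Nat.le_of_dvd hpos ?_)
    exact hpq.mul_dvd_of_dvd_of_dvd ⟨_, e7.symm⟩ ⟨_, e3.symm⟩
  refine ⟨h7, h3, h21, ?_⟩
  have hq : 0 < q := by
    rcases Nat.eq_zero_or_pos q with h | h
    · rw [h, zero_mul] at e3; omega
    · exact h
  rw [h21, mul_comm p q] at e3
  exact Nat.eq_of_mul_eq_mul_left hq e3

omit [CharZero K] in
/-- minimal polynomial of `x` over `K(y)` -/
lemma minpoly_over (x y : L) (htop : IntermediateField.adjoin K {x, y} = ⊤) {p q : ℕ}
    (hpq : p.Coprime q)
    (hx : (minpoly K x).natDegree = p) (hy : (minpoly K y).natDegree = q) :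
    minpoly K⟮y⟯ x = (minpoly K x).map (algebraMap K K⟮y⟯) := by
  have hint : IsIntegral K⟮y⟯ x := Algebra.IsIntegral.isIntegral x
  have hintK : IsIntegral K x := Algebra.IsIntegral.isIntegral x
  have hdvd := minpoly.dvd_map_of_isScalarTower K K⟮y⟯ x
  have hdeg : (minpoly K⟮y⟯ x).natDegree = p := by
    rw [← IntermediateField.adjoin.finrank hint, adj_top x y htop, IntermediateField.finrank_top',
      (finrank_sup x y htop hpq hx hy).2.2.2]
  refine (Polynomial.eq_of_monic_of_dvd_of_natDegree_le (minpoly.monic hint)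
    ((minpoly.monic hintK).map _) hdvd ?_).symm
  rw [(minpoly.monic hintK).natDegree_map, hx, hdeg]

/-- `L / K(y)` is Galois and `x ↦ x'` is an automorphism -/
theorem gal_over (x y x' : L) (htop : IntermediateField.adjoin K {x, y} = ⊤) {p q : ℕ}
    (hp : p.Prime) (hpq : p.Coprime q)
    (hx : (minpoly K x).natDegree = p) (hy : (minpoly K y).natDegree = q)
    (hx' : aeval x' (minpoly K x) = 0) (hne : x' ≠ x) :
    IsGalois K⟮y⟯ L ∧ ∃ τ : L ≃ₐ[K⟮y⟯] L, τ x = x' := by
  have : CharZero K⟮y⟯ := charZero_of_injective_algebraMap (algebraMap K K⟮y⟯).injective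
  refine galois_of_root hp (finrank_sup x y htop hpq hx hy).2.2.2 x x' (adj_top x y htop) ?_ hne
  rw [minpoly_over x y htop hpq hx hy, aeval_map_algebraMap]
  exact hx'

/-- The main theorem of this file -/
theorem main_of (x y x' y' : L) (htop : IntermediateField.adjoin K {x, y} = ⊤) {p q : ℕ}
    (hp : p.Prime) (hq : q.Prime) (hpq : p.Coprime q)
    (hx : (minpoly K x).natDegree = p) (hy : (minpoly K y).natDegree = q)
    (hx' : aeval x' (minpoly K x) = 0) (hnex : x' ≠ x)
    (hy' : aeval y' (minpoly K y) = 0) (hney : y' ≠ y) :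
    IsGalois K L ∧ Nat.card (L ≃ₐ[K] L) = p * q ∧
      (∃ τ : L ≃ₐ[K] L, τ x = x' ∧ τ y = y) ∧ (∃ σ : L ≃ₐ[K] L, σ x = x ∧ σ y = y') ∧
      IsGalois K⟮x⟯ L ∧ IsGalois K⟮y⟯ L := by
  have htop' : IntermediateField.adjoin K {y, x} = ⊤ := by rw [Set.pair_comm]; exact htop
  obtain ⟨hGy, τ₀, hτ₀⟩ := gal_over x y x' htop hp hpq hx hy hx' hnex
  obtain ⟨hGx, σ₀, hσ₀⟩ := gal_over y x y' htop' hq hpq.symm hy hx hy' hney
  obtain ⟨f1, f2, f3, -⟩ := finrank_sup x y htop hpq hx hy
  have hG : IsGalois K L := by
    apply IsGalois.of_fixedField_eq_bot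
    rw [eq_bot_iff]
    intro z hz
    rw [IntermediateField.mem_fixedField_iff] at hz
    have h1 : z ∈ K⟮y⟯ := by
      have h : z ∈ (⊥ : IntermediateField K⟮y⟯ L) := by
        rw [IsGalois.mem_bot_iff_fixed]
        intro f
        exact hz (f.restrictScalars K) trivial
      rw [IntermediateField.mem_bot] at h
      obtain ⟨w, rfl⟩ := h
      exact w.2
    have h2 : z ∈ K⟮x⟯ := by
      have h : z ∈ (⊥ : IntermediateField K⟮x⟯ L) := by
        rw [IsGalois.mem_bot_iff_fixed]
        intro f
        exact hz (f.restrictScalars K) trivial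
      rw [IntermediateField.mem_bot] at h
      obtain ⟨w, rfl⟩ := h
      exact w.2
    have d1 : Module.finrank K K⟮z⟯ ∣ q := by
      rw [← f2]
      exact IntermediateField.finrank_dvd_of_le_right (IntermediateField.adjoin_simple_le_iff.mpr h1)
    have d2 : Module.finrank K K⟮z⟯ ∣ p := by
      rw [← f1]
      exact IntermediateField.finrank_dvd_of_le_right (IntermediateField.adjoin_simple_le_iff.mpr h2)
    have d3 : Module.finrank K K⟮z⟯ = 1 := Nat.eq_one_of_dvd_coprimes hpq d2 d1
    rw [IntermediateField.finrank_adjoin_simple_eq_one_iff] at d3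
    exact d3
  refine ⟨hG, ?_, ⟨τ₀.restrictScalars K, hτ₀, ?_⟩, ⟨σ₀.restrictScalars K, ?_, hσ₀⟩, hGx, hGy⟩
  · rw [IsGalois.card_aut_eq_finrank, f3]
  · have := τ₀.commutes ⟨y, IntermediateField.mem_adjoin_simple_self K y⟩
    exact this
  · have := σ₀.commutes ⟨x, IntermediateField.mem_adjoin_simple_self K x⟩
    exact this

end

end Pool.Agent.Helper74.QE
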