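import Pool.Agent.Helper74.QE.Idn

/-!
# `g(x, y) ≠ x`, `y' ≠ y`, `g(x, y') ≠ g(x, y)` (helper74)
-/

set_option autoImplicit false

namespace Pool.Agent.Helper74.QE

variable {L : Type} [Field L] [CharZero L]

theorem ne_y {y : L} (hy : y ^ 3 + y ^ 2 - 24 * y - 27 = 0) : -6 - 2 / 3 * y + 1 / 3 * y ^ 2 ≠ y := by
  intro h
  have h1 : (-6 - 5/3*y + 1/3*y^2) * (-70/219 - 19/657*y + 8/657*y^2) = (1 : L) := by
    linear_combination (-67/1971 + 8/1971*y) * hy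
  have h2 : (-6 - 5/3*y + 1/3*y^2 : L) = 0 := by linear_combination h
  rw [h2, zero_mul] at h1
  exact zero_ne_one h1

theorem ne_x {x y : L} (hx : x ^ 7 - 8 * x ^ 5 - 2 * x ^ 4 + 16 * x ^ 3 + 6 * x ^ 2 - 6 * x - 2 = 0)
    (hy : y ^ 3 + y ^ 2 - 24 * y - 27 = 0) : gg x y ≠ x := by
  intro h
  rw [gg] at h
  have h1 : (4 + 86/219*y - 34/219*y^2 + 257/73*x + 37/73*x*y - 12/73*x*y^2 - 622/73*x^2 - 59/73*x^2*y + 19/73*x^2*y^2 - 263/73*x^3 - 47/219*x^3*y + 25/219*x^3*y^2 + 311/73*x^4 + 30/73*x^4*y - 8/73*x^4*y^2 + 47/73*x^5 + 8/219*x^5*y - 4/219*x^5*y^2 - 42/73*x^6 - 4/73*x^6*y + 1/73*x^6*y^2) * (169/73 + 112/219*y - 26/219*y^2 + 167/73*x + 50/219*x*y - 16/219*x*y^2 - 528/73*x^2 - 96/73*x^2*y + 27/73*x^2*y^2 - 161/73*x^3 - 16/73*x^3*y + 6/73*x^3*y^2 + 285/73*x^4 + 51/73*x^4*y - 14/73*x^4*y^2 + 32/73*x^5 + 11/219*x^5*y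 - 4/219*x^5*y^2 - 38/73*x^6 - 20/219*x^6*y + 11/438*x^6*y^2) = (1 : L) := by
    linear_combination (-19014/5329 - 16702/15987*y + 22673/95922*y^2 + 4285/95922*y^3 - 323/47961*y^4 + 10540/5329*x + 3738/5329*x*y - 6403/47961*x*y^2 - 2689/95922*x*y^3 + 361/95922*x*y^4 + 18255/5329*x^2 + 12638/15987*x^2*y - 20585/95922*x^2*y^2 - 2605/95922*x^2*y^3 + 433/95922*x^2*y^4 - 9516/5329*x^3 - 8345/15987*x^3*y + 9737/95922*x^3*y^2 + 854/47961*x^3*y^3 - 110/47961*x^3*y^4 - 3130/5329*x^4 - 2090/15987*x^4*y + 3463/95922*x^4*y^2 + 205/47961*x^4*y^3 - 34/47961*x^4*y^4 + 1596/5329*x^5 + 432/5329*x^5*y - 265/15987*x^5*y^2 - 14/5329*x^5*y^3 + 11/31974*x^5*y^4) * hx + (-1997/47961 + 238/47961*y + 269/47961*x - 97/47961*x*y + 847/47961*x^2 - 206/47961*x^2*y - 151/47961*x^3 + 74/47961*x^3*y + 1/219*x^4 + 20/15987*x^4*y + 43/47961*x^5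 - 11/47961*x^5*y - 62/47961*x^6 - 5/47961*x^6*y) * hy
  have h2 : (4 + 86/219*y - 34/219*y^2 + 257/73*x + 37/73*x*y - 12/73*x*y^2 - 622/73*x^2 - 59/73*x^2*y + 19/73*x^2*y^2 - 263/73*x^3 - 47/219*x^3*y + 25/219*x^3*y^2 + 311/73*x^4 + 30/73*x^4*y - 8/73*x^4*y^2 + 47/73*x^5 + 8/219*x^5*y - 4/219*x^5*y^2 - 42/73*x^6 - 4/73*x^6*y + 1/73*x^6*y^2 : L) = 0 := by linear_combination h
  rw [h2, zero_mul] at h1
  exact zero_ne_one h1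

theorem gg_conj {x y : L} (hy : y ^ 3 + y ^ 2 - 24 * y - 27 = 0) :
    gg x (-6 - 2 / 3 * y + 1 / 3 * y ^ 2) = -118/73 + 22/219*y + 40/219*y^2 - 144/73*x + 10/219*x*y + 49/219*x*y^2 + 131/73*x^2 - 5/73*x^2*y - 26/73*x^2*y^2 + 6/73*x^3 - 9/73*x^3*y - 8/73*x^3*y^2 - 37/73*x^4 - 4/219*x^4*y + 38/219*x^4*y^2 + 3/73*x^5 + 4/219*x^5*y + 4/219*x^5*y^2 + 3/73*x^6 + 1/219*x^6*y - 5/219*x^6*y^2 := by
  rw [gg]
  linear_combination (170/1971 - 34/1971*y + 20/219*x - 4/219*x*y - 95/657*x^2 + 19/657*x^2*y - 125/1971*x^3 + 25/1971*x^3*y + 40/657*x^4 - 8/657*x^4*y + 20/1971*x^5 - 4/1971*x^5*y - 5/657*x^6 + 1/657*x^6*y) * hy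

theorem ne_gg {x y : L} (hx : x ^ 7 - 8 * x ^ 5 - 2 * x ^ 4 + 16 * x ^ 3 + 6 * x ^ 2 - 6 * x - 2 = 0)
    (hy : y ^ 3 + y ^ 2 - 24 * y - 27 = 0) : gg x (-6 - 2 / 3 * y + 1 / 3 * y ^ 2) ≠ gg x y := by
  intro h
  rw [gg_conj hy, gg] at h
  have h1 : (410/73 + 64/219*y - 74/219*y^2 + 474/73*x + 101/219*x*y - 85/219*x*y^2 - 753/73*x^2 - 54/73*x^2*y + 45/73*x^2*y^2 - 269/73*x^3 - 20/219*x^3*y + 49/219*x^3*y^2 + 348/73*x^4 + 94/219*x^4*y - 62/219*x^4*y^2 + 44/73*x^5 + 4/219*x^5*y - 8/219*x^5*y^2 - 45/73*x^6 - 13/219*x^6*y + 8/219*x^6*y^2) * (61/73 + 8/219*y - 16/219*y^2 + 27/73*x + 6/73*x*y - 1/73*x*y^2 - 204/73*x^2 - 109/219*x^2*y + 29/219*x^2*y^2 + 7/73*x^3 - 10/219*x^3*y - 1/219*x^3*y^2 + 118/73*x^4 + 21/73*x^4*y - 5/73*x^4*y^2 + 1/73*x^5 + 1/73*x^5*y - 16/73*x^6 - 17/438*x^6*y + 2/219*x^6*y^2) = (1 : L) := by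
    linear_combination (-10502/5329 - 8353/15987*y + 17167/95922*y^2 + 2723/95922*y^3 - 259/47961*y^4 + 8721/5329*x + 3959/10658*x*y - 7516/47961*x*y^2 - 2011/95922*x*y^3 + 224/47961*x*y^4 + 4977/5329*x^2 + 7681/31974*x^2*y - 458/5329*x^2*y^2 - 147/10658*x^2*y^3 + 38/15987*x^2*y^4 - 5074/5329*x^3 - 3971/15987*x^3*y + 3943/47961*x^3*y^2 + 638/47961*x^3*y^3 - 116/47961*x^3*y^4 - 749/5329*x^4 - 586/15987*x^4*y + 599/47961*x^4*y^2 + 100/47961*x^4*y^3 - 16/47961*x^4*y^4 + 720/5329*x^5 + 1181/31974*x^5*y - 1087/95922*x^5*y^2 - 94/47961*x^5*y^3 + 16/47961*x^5*y^4) * hx + (49/5329 + 74/5329*y + 1862/47961*x + 476/47961*x*y - 2839/47961*x^2 - 925/47961*x^2*y - 1618/47961*x^3 - 328/47961*x^3*y + 341/15987*x^4 + 49/5329*x^4*y + 263/47961*x^5 + 59/47961*x^5*y - 116/47961*x^6 - 56/47961*x^6*y) * hy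
  have h2 : (410/73 + 64/219*y - 74/219*y^2 + 474/73*x + 101/219*x*y - 85/219*x*y^2 - 753/73*x^2 - 54/73*x^2*y + 45/73*x^2*y^2 - 269/73*x^3 - 20/219*x^3*y + 49/219*x^3*y^2 + 348/73*x^4 + 94/219*x^4*y - 62/219*x^4*y^2 + 44/73*x^5 + 4/219*x^5*y - 8/219*x^5*y^2 - 45/73*x^6 - 13/219*x^6*y + 8/219*x^6*y^2 : L) = 0 := by linear_combination -h
  rw [h2, zero_mul] at h1
  exact zero_ne_one h1

end Pool.Agent.Helper74.QE
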