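import Pool.Agent.Helper74.QE.Stm
import Pool.Agent.Helper74.QE.Ne
import Pool.Agent.Helper74.QE.GalB

/-!
# A non-abelian Galois extension of `ℚ` of degree 21 (helper74)
-/

set_option autoImplicit false

namespace Pool.Agent.Helper74.QE

open Polynomial IntermediateField

/-- the polynomial of degree 7 over `ℤ` -/
noncomputable def F7 : ℤ[X] := X ^ 7 + C (-8) * X ^ 5 + C (-2) * X ^ 4 + C 16 * X ^ 3 + C 6 * X ^ 2 + C (-6) * X + C (-2)

/-- the cubic polynomial -/
noncomputable def C3 : ℤ[X] := X ^ 3 + C 1 * X ^ 2 + C (-24) * X + C (-27)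

lemma F7_natDegree : F7.natDegree = 7 := by
  unfold F7; compute_degree!

lemma F7_monic : F7.Monic := by
  unfold F7; monicity!

lemma C3_natDegree : C3.natDegree = 3 := by
  unfold C3; compute_degree!

lemma C3_monic : C3.Monic := by
  unfold C3; monicity!

lemma F7_coeff (n : ℕ) : F7.coeff n = if n = 7 then 1 else if n = 5 then -8 else if n = 4 then -2 else
    if n = 3 then 16 else if n = 2 then 6 else if n = 1 then -6 else if n = 0 then -2 else 0 := by
  unfold F7
  simp only [coeff_add, coeff_C_mul, coeff_X_pow, coeff_X, coeff_C]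
  by_cases h7 : n = 7
  · subst h7; norm_num
  by_cases h5 : n = 5
  · subst h5; norm_num
  by_cases h4 : n = 4
  · subst h4; norm_num
  by_cases h3 : n = 3
  · subst h3; norm_num
  by_cases h2 : n = 2
  · subst h2; norm_num
  by_cases h1 : n = 1
  · subst h1; norm_num
  by_cases h0 : n = 0
  · subst h0; norm_num
  have h1' : ¬ (1 = n) := fun h => h1 h.symm
  simp [h7, h5, h4, h3, h2, h1, h0, h1']

lemma F7_irr : Irreducible F7 := by
  have h2 : (Ideal.span {(2 : ℤ)}).IsPrime := by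
    rw [Ideal.span_singleton_prime (by norm_num)]
    exact Int.prime_two
  refine irreducible_of_eisenstein_criterion h2 ?_ ?_ ?_ ?_ F7_monic.isPrimitive
  · rw [F7_monic.leadingCoeff, Ideal.mem_span_singleton]
    norm_num
  · intro n hn
    rw [degree_eq_natDegree F7_monic.ne_zero, F7_natDegree] at hn
    have hn' : n < 7 := by exact_mod_cast hn
    rw [Ideal.mem_span_singleton, F7_coeff]
    interval_cases n <;> norm_num
  · rw [degree_eq_natDegree F7_monic.ne_zero, F7_natDegree]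
    norm_num
  · rw [F7_coeff, Ideal.span_singleton_pow, Ideal.mem_span_singleton]
    norm_num

lemma key2 : ∀ a : ZMod 2, a ^ 3 + ((1 : ℤ) : ZMod 2) * a ^ 2 + ((-24 : ℤ) : ZMod 2) * a +
    ((-27 : ℤ) : ZMod 2) ≠ 0 := by decide

lemma C3_irr : Irreducible C3 := by
  have : Fact (Nat.Prime 2) := ⟨Nat.prime_two⟩
  apply C3_monic.irreducible_of_irreducible_map (Int.castRingHom (ZMod 2))
  have hm : (C3.map (Int.castRingHom (ZMod 2))).natDegree = 3 := by
    rw [C3_monic.natDegree_map, C3_natDegree]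
  rw [irreducible_iff_roots_eq_zero_of_degree_le_three (by rw [hm]; norm_num) (by rw [hm])]
  rw [Multiset.eq_zero_iff_forall_notMem]
  intro a ha
  rw [mem_roots (C3_monic.map _).ne_zero, IsRoot.def, eval_map] at ha
  unfold C3 at ha
  simp only [eval₂_add, eval₂_mul, eval₂_pow, eval₂_X, eval₂_C] at ha
  simp only [eq_intCast] at ha
  exact key2 a ha

lemma F7_irrQ : Irreducible (F7.map (algebraMap ℤ ℚ)) :=
  (F7_monic.irreducible_iff_irreducible_map_fraction_map (K := ℚ)).mp F7_irr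

lemma C3_irrQ : Irreducible (C3.map (algebraMap ℤ ℚ)) :=
  (C3_monic.irreducible_iff_irreducible_map_fraction_map (K := ℚ)).mp C3_irr

section field

variable {L : Type} [Field L] [Algebra ℚ L]

lemma minpoly_7 {x : L} (hx : x ^ 7 - 8 * x ^ 5 - 2 * x ^ 4 + 16 * x ^ 3 + 6 * x ^ 2 - 6 * x - 2 = 0) :
    minpoly ℚ x = F7.map (algebraMap ℤ ℚ) := by
  refine (minpoly.eq_of_irreducible_of_monic F7_irrQ ?_ (F7_monic.map _)).symm
  rw [aeval_map_algebraMap]
  unfold F7
  simp only [map_add, map_mul, map_pow, aeval_X, aeval_C]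
  simp only [eq_intCast]
  push_cast
  linear_combination hx

lemma minpoly_3 {y : L} (hy : y ^ 3 + y ^ 2 - 24 * y - 27 = 0) :
    minpoly ℚ y = C3.map (algebraMap ℤ ℚ) := by
  refine (minpoly.eq_of_irreducible_of_monic C3_irrQ ?_ (C3_monic.map _)).symm
  rw [aeval_map_algebraMap]
  unfold C3
  simp only [map_add, map_mul, map_pow, aeval_X, aeval_C]
  simp only [eq_intCast]
  push_cast
  linear_combination hy

lemma int_7 {x : L} (hx : x ^ 7 - 8 * x ^ 5 - 2 * x ^ 4 + 16 * x ^ 3 + 6 * x ^ 2 - 6 * x - 2 = 0) :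
    IsIntegral ℚ x := by
  by_contra h
  have h1 := minpoly_7 hx
  rw [minpoly.eq_zero h] at h1
  exact (F7_monic.map (algebraMap ℤ ℚ)).ne_zero h1.symm

lemma int_3 {y : L} (hy : y ^ 3 + y ^ 2 - 24 * y - 27 = 0) : IsIntegral ℚ y := by
  by_contra h
  have h1 := minpoly_3 hy
  rw [minpoly.eq_zero h] at h1
  exact (C3_monic.map (algebraMap ℤ ℚ)).ne_zero h1.symm

lemma finrank_7 {x : L} (hx : x ^ 7 - 8 * x ^ 5 - 2 * x ^ 4 + 16 * x ^ 3 + 6 * x ^ 2 - 6 * x - 2 = 0) :
    Module.finrank ℚ ℚ⟮x⟯ = 7 := by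
  rw [IntermediateField.adjoin.finrank (int_7 hx), minpoly_7 hx, F7_monic.natDegree_map, F7_natDegree]

lemma finrank_3 {y : L} (hy : y ^ 3 + y ^ 2 - 24 * y - 27 = 0) :
    Module.finrank ℚ ℚ⟮y⟯ = 3 := by
  rw [IntermediateField.adjoin.finrank (int_3 hy), minpoly_3 hy, C3_monic.natDegree_map, C3_natDegree]

end field

end Pool.Agent.Helper74.QE
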