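import Mathlib

/-!
# The polynomial identity `f(g(x, y)) = 0` modulo `f(x)` and `c(y)` (helper74)
-/

set_option autoImplicit false

namespace Pool.Agent.Helper74.QE

variable {L : Type} [Field L] [CharZero L]

/-- `g(x, y)` -/
def gg (x y : L) : L :=
  4 + 86/219*y - 34/219*y^2 + 330/73*x + 37/73*x*y - 12/73*x*y^2 - 622/73*x^2 - 59/73*x^2*y + 19/73*x^2*y^2 - 263/73*x^3 - 47/219*x^3*y + 25/219*x^3*y^2 + 311/73*x^4 + 30/73*x^4*y - 8/73*x^4*y^2 + 47/73*x^5 + 8/219*x^5*y - 4/219*x^5*y^2 - 42/73*x^6 - 4/73*x^6*y + 1/73*x^6*y^2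

theorem gg_root {x y : L} (hx : x ^ 7 - 8 * x ^ 5 - 2 * x ^ 4 + 16 * x ^ 3 + 6 * x ^ 2 - 6 * x - 2 = 0)
    (hy : y ^ 3 + y ^ 2 - 24 * y - 27 = 0) :
    gg x y ^ 7 - 8 * gg x y ^ 5 - 2 * gg x y ^ 4 + 16 * gg x y ^ 3 + 6 * gg x y ^ 2 - 6 * gg x y - 2 = 0 := by
  have h1 : (4 + 86/219*y - 34/219*y^2 + 330/73*x + 37/73*x*y - 12/73*x*y^2 - 622/73*x^2 - 59/73*x^2*y + 19/73*x^2*y^2 - 263/73*x^3 - 47/219*x^3*y + 25/219*x^3*y^2 + 311/73*x^4 + 30/73*x^4*y - 8/73*x^4*y^2 + 47/73*x^5 + 8/219*x^5*y - 4/219*x^5*y^2 - 42/73*x^6 - 4/73*x^6*y + 1/73*x^6*y^2) * gg x y + (-8) = -364/73 - 24/73*y - 8/73*y^2 + 194/73*x - 52/73*x*y - 4/73*x*y^2 + 314/73*x^2 + 92/73*x^2*y + 5/73*x^2*y^2 - 50/73*x^3 + 184/219*x^3*y + 4/219*x^3*y^2 - 257/73*x^4 - 169/219*x^4*y + 8/219*x^4*y^2 - 4/73*x^5 - 12/73*x^5*y + 38/73*x^6 + 25/219*x^6*y - 2/219*x^6*y^2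 := by
    rw [gg]
    linear_combination (-30636/5329 - 19576/15987*y + 15704/47961*y^2 + 1870/47961*y^3 - 310/47961*y^4 + 9703/5329*x + 2586/5329*x*y - 1354/15987*x*y^2 - 242/15987*x*y^3 + 26/15987*x*y^4 + 23270/5329*x^2 + 11312/15987*x^2*y - 3542/15987*x^2*y^2 - 326/15987*x^2*y^3 + 56/15987*x^2*y^4 - 9803/5329*x^3 - 6208/15987*x^3*y + 3526/47961*x^3*y^2 + 476/47961*x^3*y^3 - 56/47961*x^3*y^4 - 3948/5329*x^4 - 600/5329*x^4*y + 554/15987*x^4*y^2 + 16/5329*x^4*y^3 - 8/15987*x^4*y^4 + 1764/5329*x^5 + 336/5329*x^5*y - 68/5329*x^5*y^2 - 8/5329*x^5*y^3 + 1/5329*x^5*y^4) * hx + (-2644/47961 + 536/47961*y - 524/5329*x + 248/15987*x*y - 1256/15987*x^2 + 28/15987*x^2*y + 2830/47961*x^3 - 416/47961*x^3*y + 3055/47961*x^4 - 179/47961*x^4*y - 92/15987*x^5 + 16/15987*x^5*y - 143/15987*x^6 + 3/5329*x^6*y) * hy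
  have h2 : (-364/73 - 24/73*y - 8/73*y^2 + 194/73*x - 52/73*x*y - 4/73*x*y^2 + 314/73*x^2 + 92/73*x^2*y + 5/73*x^2*y^2 - 50/73*x^3 + 184/219*x^3*y + 4/219*x^3*y^2 - 257/73*x^4 - 169/219*x^4*y + 8/219*x^4*y^2 - 4/73*x^5 - 12/73*x^5*y + 38/73*x^6 + 25/219*x^6*y - 2/219*x^6*y^2) * gg x y + (-2) = -1678/73 - 536/219*y + 190/219*y^2 - 1238/73*x - 536/219*x*y + 136/219*x*y^2 + 4238/73*x^2 + 1228/219*x^2*y - 512/219*x^2*y^2 + 1291/73*x^3 + 110/73*x^3*y - 47/73*x^3*y^2 - 2236/73*x^4 - 641/219*x^4*y + 268/219*x^4*y^2 - 268/73*x^5 - 22/73*x^5*y + 10/73*x^5*y^2 + 303/73*x^6 + 29/73*x^6*y - 12/73*x^6*y^2 := by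
    rw [gg]
    linear_combination (1087/5329 + 4732/5329*y + 818/5329*y^2 - 131/5329*y^3 - 12/5329*y^4 - 11357/5329*x - 1469/5329*x*y + 107/5329*x*y^2 - 1/5329*x*y^3 + 3/5329*x*y^4 - 8777/5329*x^2 - 5248/5329*x^2*y - 61/5329*x^2*y^2 + 137/5329*x^2*y^3 - 2/5329*x^2*y^4 + 9656/5329*x^3 + 2535/5329*x^3*y - 7/219*x^3*y^2 - 149/15987*x^3*y^3 + 8/15987*x^3*y^4 + 1954/5329*x^4 + 1013/5329*x^4*y - 142/47961*x^4*y^2 - 224/47961*x^4*y^3 + 8/47961*x^4*y^4 - 1596/5329*x^5 - 502/5329*x^5*y + 98/15987*x^5*y^2 + 11/5329*x^5*y^3 - 2/15987*x^5*y^4) * hx + (-286/5329 + 200/15987*y - 1190/15987*x + 226/15987*x*y + 2164/15987*x^2 - 224/15987*x^2*y + 4253/47961*x^3 - 454/47961*x^3*y - 3514/47961*x^4 + 335/47961*x^4*y - 260/15987*x^5 + 23/15987*x^5*y + 55/5329*x^6 - 16/15987*x^6*y) * hy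
  have h3 : (-1678/73 - 536/219*y + 190/219*y^2 - 1238/73*x - 536/219*x*y + 136/219*x*y^2 + 4238/73*x^2 + 1228/219*x^2*y - 512/219*x^2*y^2 + 1291/73*x^3 + 110/73*x^3*y - 47/73*x^3*y^2 - 2236/73*x^4 - 641/219*x^4*y + 268/219*x^4*y^2 - 268/73*x^5 - 22/73*x^5*y + 10/73*x^5*y^2 + 303/73*x^6 + 29/73*x^6*y - 12/73*x^6*y^2) * gg x y + (16) = -336/73 + 44/219*y + 152/219*y^2 - 366/73*x + 158/219*x*y - 10/219*x*y^2 + 898/73*x^2 - 578/219*x^2*y - 284/219*x^2*y^2 + 220/73*x^3 - 314/219*x^3*y - 20/219*x^3*y^2 - 173/73*x^4 + 401/219*x^4*y + 107/219*x^4*y^2 - 36/73*x^5 + 68/219*x^5*y + 8/219*x^5*y^2 + 10/73*x^6 - 20/73*x^6*y - 4/73*x^6*y^2 := by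
    rw [gg]
    linear_combination (172707/5329 + 115412/15987*y - 97295/47961*y^2 - 12571/47961*y^3 + 2146/47961*y^4 - 86159/5329*x - 57214/15987*x*y + 5365/5329*x*y^2 + 703/5329*x*y^3 - 346/15987*x*y^4 - 143827/5329*x^2 - 24569/5329*x^2*y + 78413/47961*x^2*y^2 + 7375/47961*x^2*y^3 - 1459/47961*x^2*y^4 + 73741/5329*x^3 + 44515/15987*x^3*y - 12368/15987*x^3*y^2 - 491/5329*x^3*y^3 + 76/5329*x^3*y^4 + 25497/5329*x^4 + 4167/5329*x^4*y - 4472/15987*x^4*y^2 - 398/15987*x^4*y^3 + 26/5329*x^4*y^4 - 12726/5329*x^5 - 2430/5329*x^5*y + 691/5329*x^5*y^2 + 77/5329*x^5*y^3 - 12/5329*x^5*y^4) * hx + (11590/47961 - 2168/47961*y + 8198/47961*x - 664/47961*x*y + 3748/15987*x^2 + 440/15987*x^2*y - 332/5329*x^3 + 26/5329*x^3*y - 11269/47961*x^4 - 154/47961*x^4*y - 74/15987*x^5 - 1/5329*x^5*y + 583/15987*x^6 - 1/5329*x^6*y) * hy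
  have h4 : (-336/73 + 44/219*y + 152/219*y^2 - 366/73*x + 158/219*x*y - 10/219*x*y^2 + 898/73*x^2 - 578/219*x^2*y - 284/219*x^2*y^2 + 220/73*x^3 - 314/219*x^3*y - 20/219*x^3*y^2 - 173/73*x^4 + 401/219*x^4*y + 107/219*x^4*y^2 - 36/73*x^5 + 68/219*x^5*y + 8/219*x^5*y^2 + 10/73*x^6 - 20/73*x^6*y - 4/73*x^6*y^2) * gg x y + (6) = 1014/73 + 722/219*y - 100/219*y^2 + 862/73*x + 136/73*x*y - 50/73*x*y^2 - 2958/73*x^2 - 704/73*x^2*y + 128/73*x^2*y^2 - 1186/73*x^3 - 132/73*x^3*y + 58/73*x^3*y^2 + 1718/73*x^4 + 1126/219*x^4*y - 230/219*x^4*y^2 + 255/73*x^5 + 31/73*x^5*y - 12/73*x^5*y^2 - 245/73*x^6 - 50/73*x^6*y + 11/73*x^6*y^2 := by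
    rw [gg]
    linear_combination (49197/5329 - 6902/15987*y - 51169/47961*y^2 - 428/47961*y^3 + 983/47961*y^4 - 24655/5329*x - 3071/15987*x*y + 3977/5329*x*y^2 + 716/15987*x*y^3 - 88/5329*x*y^4 - 16181/5329*x^2 + 8239/5329*x^2*y + 26977/47961*x^2*y^2 - 1354/47961*x^2*y^3 - 476/47961*x^2*y^4 + 5324/5329*x^3 - 10418/15987*x^3*y - 16487/47961*x^3*y^2 - 217/47961*x^3*y^3 + 289/47961*x^3*y^4 + 1982/5329*x^4 - 5164/15987*x^4*y - 1480/15987*x^4*y^2 + 28/5329*x^4*y^3 + 8/5329*x^4*y^4 - 420/5329*x^5 + 800/5329*x^5*y + 258/5329*x^5*y^2 - 4/5329*x^5*y^3 - 4/5329*x^5*y^4) * hx + (13922/47961 - 3202/47961*y + 11602/47961*x - 818/47961*x*y - 30296/47961*x^2 + 7078/47961*x^2*y - 12506/47961*x^3 + 880/47961*x^3*y + 14752/47961*x^4 - 3632/47961*x^4*y + 731/15987*x^5 - 70/15987*x^5*y - 629/15987*x^6 + 157/15987*x^6*y) * hy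
  have h5 : (1014/73 + 722/219*y - 100/219*y^2 + 862/73*x + 136/73*x*y - 50/73*x*y^2 - 2958/73*x^2 - 704/73*x^2*y + 128/73*x^2*y^2 - 1186/73*x^3 - 132/73*x^3*y + 58/73*x^3*y^2 + 1718/73*x^4 + 1126/219*x^4*y - 230/219*x^4*y^2 + 255/73*x^5 + 31/73*x^5*y - 12/73*x^5*y^2 - 245/73*x^6 - 50/73*x^6*y + 11/73*x^6*y^2) * gg x y + (-6) = 310/73 + 196/219*y - 44/219*y^2 + 280/73*x + 70/219*x*y - 50/219*x*y^2 - 912/73*x^2 - 518/219*x^2*y + 148/219*x^2*y^2 - 384/73*x^3 - 26/219*x^3*y + 70/219*x^3*y^2 + 506/73*x^4 + 242/219*x^4*y - 88/219*x^4*y^2 + 88/73*x^5 + 8/219*x^5*y - 16/219*x^5*y^2 - 74/73*x^6 - 29/219*x^6*y + 13/219*x^6*y^2 := by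
    rw [gg]
    linear_combination (-112978/5329 - 120922/15987*y + 57686/47961*y^2 + 13960/47961*y^3 - 1726/47961*y^4 + 46659/5329*x + 71119/15987*x*y - 3949/15987*x*y^2 - 2380/15987*x*y^3 + 175/15987*x*y^4 + 117078/5329*x^2 + 91040/15987*x^2*y - 65086/47961*x^2*y^2 - 9485/47961*x^2*y^3 + 1409/47961*x^2*y^4 - 54046/5329*x^3 - 18759/5329*x^3*y + 7321/15987*x^3*y^2 + 1760/15987*x^3*y^3 - 182/15987*x^3*y^4 - 22225/5329*x^4 - 15976/15987*x^4*y + 4036/15987*x^4*y^2 + 175/5329*x^4*y^3 - 80/15987*x^4*y^4 + 10290/5329*x^5 + 3080/5329*x^5*y - 507/5329*x^5*y^2 - 94/5329*x^5*y^3 + 11/5329*x^5*y^4) * hx + (-5176/47961 - 52/47961*y + 2074/15987*x - 202/15987*x*y - 16190/47961*x^2 + 2968/47961*x^2*y - 2756/15987*x^3 + 346/15987*x^3*y + 4648/15987*x^4 - 656/15987*x^4*y + 218/5329*x^5 - 82/15987*x^5*y - 2192/47961*x^6 + 286/47961*x^6*y)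 * hy
  have h6 : (310/73 + 196/219*y - 44/219*y^2 + 280/73*x + 70/219*x*y - 50/219*x*y^2 - 912/73*x^2 - 518/219*x^2*y + 148/219*x^2*y^2 - 384/73*x^3 - 26/219*x^3*y + 70/219*x^3*y^2 + 506/73*x^4 + 242/219*x^4*y - 88/219*x^4*y^2 + 88/73*x^5 + 8/219*x^5*y - 16/219*x^5*y^2 - 74/73*x^6 - 29/219*x^6*y + 13/219*x^6*y^2) * gg x y + (-2) = 0 := by
    rw [gg]
    linear_combination (-36166/5329 - 32842/15987*y + 22903/47961*y^2 + 4073/47961*y^3 - 644/47961*y^4 + 14302/5329*x + 21818/15987*x*y - 4847/47961*x*y^2 - 2284/47961*x*y^3 + 193/47961*x*y^4 + 35564/5329*x^2 + 20071/15987*x^2*y - 8600/15987*x^2*y^2 - 284/5329*x^2*y^3 + 61/5329*x^2*y^4 - 15266/5329*x^3 - 13987/15987*x^3*y + 8689/47961*x^3*y^2 + 1544/47961*x^3*y^3 - 200/47961*x^3*y^4 - 7174/5329*x^4 - 3347/15987*x^4*y + 5201/47961*x^4*y^2 + 436/47961*x^4*y^3 - 100/47961*x^4*y^4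 + 3108/5329*x^5 + 702/5329*x^5*y - 652/15987*x^5*y^2 - 27/5329*x^5*y^3 + 13/15987*x^5*y^4) * hx + (-2510/47961 + 208/47961*y + 1444/47961*x - 194/47961*x*y - 2404/47961*x^2 + 380/47961*x^2*y - 2306/47961*x^3 + 382/47961*x^3*y + 3142/47961*x^4 - 356/47961*x^4*y + 650/47961*x^5 - 94/47961*x^5*y - 188/15987*x^6 + 20/15987*x^6*y) * hy
  have e0 : 4 + 86/219*y - 34/219*y^2 + 330/73*x + 37/73*x*y - 12/73*x*y^2 - 622/73*x^2 - 59/73*x^2*y + 19/73*x^2*y^2 - 263/73*x^3 - 47/219*x^3*y + 25/219*x^3*y^2 + 311/73*x^4 + 30/73*x^4*y - 8/73*x^4*y^2 + 47/73*x^5 + 8/219*x^5*y - 4/219*x^5*y^2 - 42/73*x^6 - 4/73*x^6*y + 1/73*x^6*y^2 = gg x y := by rw [gg]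
  rw [e0] at h1
  rw [← h1] at h2
  rw [← h2] at h3
  rw [← h3] at h4
  rw [← h4] at h5
  rw [← h5] at h6
  linear_combination h6

theorem cub_root {y : L} (hy : y ^ 3 + y ^ 2 - 24 * y - 27 = 0) :
    (-6 - 2 / 3 * y + 1 / 3 * y ^ 2) ^ 3 + (-6 - 2 / 3 * y + 1 / 3 * y ^ 2) ^ 2
      - 24 * (-6 - 2 / 3 * y + 1 / 3 * y ^ 2) - 27 = 0 := by
  linear_combination (7/3 - 8/27*y - 7/27*y^2 + 1/27*y^3) * hy

end Pool.Agent.Helper74.QE
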